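import Mathlib
import Pool.Agent.H958.RO.Fin
import Pool.Agent.H958.RL.All2

/-!
# The exponential order of the dimension of sparse random graph orders (MP_ef8d06_pr, Q1)

There are functions `β, γ : [1, ∞) → (0, ∞)`, both tending to `1` at infinity, such that for every
sequence `(c_n)` with `1 ≤ c_n ≤ log n`, asymptotically almost surely
`exp (β (c_n) c_n) ≤ dim P_{G(n, c_n / n)} ≤ exp (γ (c_n) c_n)`: a full affirmative answer to Q1.

Outline of the proof.

* Lower bound.  Let `a = n ^ (1 / 2 + o(1))`.  The first `a` vertices have, up to half of them,
  disjoint sets of descendants of a certain size (second moment and the inequality of Efron and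
  Stein); hence every set of `b` of them has many descendants among the first half of the
  vertices (growth in blocks, Chernoff bound), and similarly for the last `a` vertices and
  ancestors; so with high probability there is a comparable pair between every `b` of the first
  and every `b` of the last vertices, `b = a exp (-(1 - ε) c)`.  As most pairs of the first and the
  last `a` vertices are incomparable, a realiser needs many linear extensions: each linear
  extension reverses at most `b (|A| + |B|)` pairs.
* Upper bound for `c ≥ (log log n) ^ 2`.  With high probability all up-sets have at most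
  `exp (c + 1) (3 log n + 1)` elements (moments), and random monotone functions reverse all pairs.
* Upper bound for `c ≤ (log log n) ^ 2`.  The elements comparable only with elements whose up-sets
  and down-sets have at most `exp ((1 + ε) c)` elements are treated by a theorem of Füredi and Kahn
  (local lemma).  The other elements are so few that the graph near them becomes a forest after the
  removal of some vertices far apart from each other; such orders have bounded dimension.
-/

set_option autoImplicit false

namespace Pool.Agent.Results.MP_ef8d06_pr.ExponentialOrder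

open Finset Filter Topology
open scoped Classical

noncomputable section

/-- The possible edges: the pairs `(i, j)` with `i < j`. An edge set is a subset of `Edges n`. -/
def Edges (n : ℕ) : Finset (Fin n × Fin n) := Finset.univ.filter (fun e => e.1 < e.2)

/-- The probability that the edge set of `G(n, p)` has the property `Q`. -/
def Prob (p : ℝ) (n : ℕ) (Q : Finset (Fin n × Fin n) → Prop) : ℝ :=
  ∑ E ∈ (Edges n).powerset.filter Q, p ^ E.card * (1 - p) ^ ((Edges n).card - E.card)

/-- The graph order of the edge set `E`: `x ≤ y` iff `x = y` or there is an increasing path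
from `x` to `y`. -/
def Le {n : ℕ} (E : Finset (Fin n × Fin n)) (x y : Fin n) : Prop :=
  Relation.ReflTransGen (fun a b => (a, b) ∈ E) x y

/-- There are `k` linear orders whose intersection is the order of `E`. -/
def Realizer {n : ℕ} (E : Finset (Fin n × Fin n)) (k : ℕ) : Prop :=
  ∃ L : Fin k → Fin n → Fin n → Prop, (∀ i, IsLinearOrder (Fin n) (L i)) ∧
    ∀ x y, Le E x y ↔ ∀ i, L i x y

/-- The dimension of the order of `E`: the least size of a realiser. -/
def dim {n : ℕ} (E : Finset (Fin n × Fin n)) : ℕ := sInf {k | Realizer E k}

theorem dim_eq {n : ℕ} (E : Finset (Fin n × Fin n)) : dim E = Pool.Agent.H958.RO.dimG E := by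
  unfold dim Pool.Agent.H958.RO.dimG
  congr 1
  ext k
  exact (Pool.Agent.H958.RO.rlz_iff E k).symm

/-- There are functions `β, γ : [1, ∞) → (0, ∞)`, both tending to `1` at infinity, such that for
every sequence `c` with `1 ≤ c n ≤ log n` (for all large `n`), with probability tending to `1`,
`exp (β (c n) * c n) ≤ dim P ≤ exp (γ (c n) * c n)` for the graph order `P` of `G(n, c n / n)`. -/
theorem result : ∃ β γ : ℝ → ℝ, (∀ x, 1 ≤ x → 0 < β x) ∧ (∀ x, 1 ≤ x → 0 < γ x) ∧
    Tendsto β atTop (𝓝 1) ∧ Tendsto γ atTop (𝓝 1) ∧
    ∀ c : ℕ → ℝ, (∀ᶠ n in atTop, 1 ≤ c n ∧ c n ≤ Real.log n) →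
      Tendsto (fun n : ℕ => Prob (c n / n) n (fun E =>
        Real.exp (β (c n) * c n) ≤ (dim E : ℝ) ∧ (dim E : ℝ) ≤ Real.exp (γ (c n) * c n)))
        atTop (𝓝 1) := by
  simp only [dim_eq]
  exact Pool.Agent.H958.RL.goal

end

end Pool.Agent.Results.MP_ef8d06_pr.ExponentialOrder
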